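import Pool.Agent.H660R2.NX.Cor

/-!
# `NEXP` is not contained in `P^NP` with `2 ^ (n ^ c)` potential yes-queries and `n ^ c` advice

For every constant `c` there is a language in `NEXP` that is not decided by any deterministic
polynomial-time algorithm with an oracle in `NP` and `n ^ c + c` bits of advice such that one of the
following restrictions holds on all inputs of length `n`:

* at most `2 ^ (n ^ c + c)` elements of the oracle can be asked as queries when the algorithm is run
  with a list of answers in which all answers `true` are correct (the number and the length of the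
  queries are bounded by arbitrary polynomials);
* all queries have length at most `n ^ c + c` (the number of the queries is bounded by an arbitrary
  polynomial and the oracle is an arbitrary language in `NP`);
* at most `n ^ c + c` bits are remembered from one query to the next one (the number and the length
  of the queries are bounded by arbitrary polynomials).

Moreover, either `NEXP` is not contained in `P^NP/poly`, or for each `c` there is a language in
`EXP` that is not decided by such algorithms even if correctness is required only on the input
lengths in some infinite set.  The restricted classes of the first kind exhaust `P^NP` as `c` grows.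
-/

namespace Pool.Agent.Results.MP_92db0f_lc.FewYesQueries

open Pool.Agent.H660R2.NX

/-- **Main theorem.** -/
theorem result :
    (∀ c : ℕ, ∃ L : Set (List Bool), InNEXP L ∧ ¬ InPNPFew c Set.univ L ∧
      ¬ InPNPLen c Set.univ L ∧ ¬ InPNPMem c Set.univ L) ∧
    ((∃ L : Set (List Bool), InNEXP L ∧ ¬ InPNPPoly L) ∨
      ∀ c : ℕ, ∃ L : Set (List Bool), InEXP L ∧ ∀ S : Set ℕ, S.Infinite →
        ¬ InPNPFew c S L ∧ ¬ InPNPLen c S L ∧ ¬ InPNPMem c S L) ∧
    ∀ L : Set (List Bool), InPNP L → ∃ c : ℕ, InPNPFew c Set.univ L := by
  obtain ⟨h1, h2, h3⟩ := main_all
  refine ⟨fun c => ?_, ?_, h3⟩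
  · obtain ⟨L, h4, h5, h6, h7, _⟩ := h1 c
    exact ⟨L, h4, h5, h6, h7⟩
  · rcases h2 with h2 | h2
    · exact Or.inl h2
    · right
      intro c
      obtain ⟨L, h4, h5⟩ := h2 c
      exact ⟨L, h4, fun S hS => ⟨(h5 S hS).1, (h5 S hS).2.1, (h5 S hS).2.2.1⟩⟩

end Pool.Agent.Results.MP_92db0f_lc.FewYesQueries
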