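import Pool.Agent.H752.NX.Final
import Pool.Agent.H537R5.NX.Fin
import Pool.Agent.H537R5.NX.Ph
import Pool.Agent.H944R2.NX.X2
import Pool.Agent.H911R5.NX.X3
import Pool.Agent.H899.NX.X4
import Pool.Agent.H152R2.NX.Srch
import Pool.Agent.H911R5.NX.X6
import Pool.Agent.H828R2.NX.X7
import Pool.Agent.H944R2.NX.X8
import Pool.Agent.H152R2.NX.Par

/-!
# How many oracles put `NEXP` into `P^NP`?

For every gauge `f`, the set of the oracles `A` with `NEXP ⊆ P^NP` relative to `A` is a null set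
for `f` if and only if, for every `ε > 0`, `f N ≤ 2 ^ ((log N) ^ ε)` for infinitely many `N`. The
same holds for every set of oracles between this set and the set of the `A` with `NEXP ⊆ PH/poly`
relative to `A`.
-/

namespace Pool.Agent.Results.MP_92db0f_lc.GaugeThreshold

open Pool.Agent.NPC Pool.Agent.H620R2.Gauge Pool.Agent.H752.NX Pool.Agent.H752 Filter

theorem result (f : ℕ → ℝ) :
    (Null f {A : Oracle | ∀ L, GE.IsNEXP A L → IsPNP A L} ↔
      ∀ ε : ℝ, 0 < ε → ∃ᶠ N : ℕ in atTop, f N ≤ 2 ^ (Real.logb 2 N) ^ ε) ∧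
    ∀ O : Set Oracle, {A : Oracle | ∀ L, GE.IsNEXP A L → IsPNP A L} ⊆ O →
      O ⊆ {A : Oracle | ∀ L, GE.IsNEXP A L → IsPHpoly A L} →
      (Null f O ↔
        ∀ ε : ℝ, 0 < ε → ∃ᶠ N : ℕ in atTop, f N ≤ 2 ^ (Real.logb 2 N) ^ ε) :=
  ⟨final (t_nn (t_phi t_fin t_cpt t_data) (t_pnp t_srch t_alg)) t_par t_ph f _ subset_rfl
      (sub t_ph),
    fun O h1 h2 => final (t_nn (t_phi t_fin t_cpt t_data) (t_pnp t_srch t_alg)) t_par t_ph f O
      h1 h2⟩

end Pool.Agent.Results.MP_92db0f_lc.GaugeThreshold
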