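import Pool.Agent.H861R4.IM.FinalF
import Pool.Agent.H537R5.NX.Ph
import Pool.Agent.H152R2.NX.Par

/-!
# Random oracles: one language has frequency one half along every set of the hierarchy

For almost every oracle `A` there is a language `L` in `NEXP`, even in parity-`P` and in `PSPACE`,
relative to `A` which has the limiting frequency `1/2` along every infinite language `S` in
`P^NP`, and even along every infinite `S` in `PH`, relative to `A`, however sparse `S` is. In
particular no infinite subset of `L` or of its complement is in `PH` relative to `A`.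
-/

namespace Pool.Agent.Results.MP_92db0f_lc.RandomOracleFrequency

open Pool.Agent.NPC Pool.Agent.H620R2.Gauge Pool.Agent.H752.NX Pool.Agent.H752
open Pool.Agent.H861R4.IM MeasureTheory

open Classical in
theorem result : ∀ᵐ A ∂ranO, ∃ L : Set (List Bool),
    GE.IsNEXP A L ∧ IsParityP A L ∧ IsPSPACE A L ∧
    ∀ S : Set (List Bool), (IsPNP A S ∨ IsPH A S) → S.Infinite →
    Filter.Tendsto (fun N : ℕ =>
      (((Finset.range N).filter (fun i => str i ∈ S ∩ L)).card : ℝ) /
      (((Finset.range N).filter (fun i => str i ∈ S)).card : ℝ)) Filter.atTop (nhds (1 / 2)) := by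
  filter_upwards [main_FR, main_FB] with A hA hB
  refine ⟨parLang A, t_par A, hB.1, hB.2.1, ?_⟩
  intro S hS
  exact hA S (hS.elim (fun h => t_ph A S h) id)

end Pool.Agent.Results.MP_92db0f_lc.RandomOracleFrequency
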