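import Pool.Agent.H861R4.IM.FinalB
import Pool.Agent.H620R2.Gauge.U2
import Pool.Agent.H537R5.NX.Ph
import Pool.Agent.H152R2.NX.Par

/-!
# Random oracles: one language splits every set of the nonuniform hierarchy evenly

For almost every oracle `A` there is a language `L` in `NEXP`, even in parity-`P` and in `PSPACE`,
relative to `A` which splits every language `S` in `P^NP`, and even every `S` in `PH/poly`,
relative to `A` evenly: for every polynomial `r` there is a polynomial `q` such that, for every
length `n`, if `S` has at least `q(n)` strings of length `n` then the numbers of the strings of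
length `n` in `S ∩ L` and in `S \ L` differ by at most the `r(n)`-th part of their sum.
-/

namespace Pool.Agent.Results.MP_92db0f_lc.RandomOracleSplitting

open Pool.Agent.NPC Pool.Agent.H620R2.Gauge Pool.Agent.H752.NX Pool.Agent.H752
open Pool.Agent.H861R4.IM MeasureTheory

theorem result : ∀ᵐ A ∂ranO, ∃ L : Set (List Bool),
    GE.IsNEXP A L ∧ IsParityP A L ∧ IsPSPACE A L ∧
    ∀ S : Set (List Bool), (IsPNP A S ∨ IsPHpoly A S) → ∀ r : Polynomial ℕ,
    ∃ q : Polynomial ℕ, ∀ n : ℕ,
      q.eval n ≤ Set.ncard {x : List Bool | x ∈ S ∧ x.length = n} →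
      ((r.eval n : ℕ) : ℝ) * |((Set.ncard {x : List Bool | x ∈ S ∩ L ∧ x.length = n} : ℕ) : ℝ) -
        ((Set.ncard {x : List Bool | x ∈ S \ L ∧ x.length = n} : ℕ) : ℝ)| ≤
      ((Set.ncard {x : List Bool | x ∈ S ∧ x.length = n} : ℕ) : ℝ) := by
  filter_upwards [main_FB] with A hA
  refine ⟨parLang A, t_par A, hA.1, hA.2.1, ?_⟩
  intro S hS
  exact hA.2.2.2 S (hS.elim (fun h => (t_ph A S h).isPHpoly) id)

end Pool.Agent.Results.MP_92db0f_lc.RandomOracleSplitting
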